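import Pool.Agent.N229.PG.All

/-! For every exponent `0 < α ≤ 1` there is a countable peak set for the analytic Lipschitz
class `A_α` which is not a zero set for the Gevrey class `G_α`. -/

namespace Pool.Agent.Results.MP_345ce5_an.EveryExponent

theorem result : ∀ α : ℝ, 0 < α → α ≤ 1 →
    ∃ E : Set ℂ, E.Countable ∧ PK.IsPeakSet α E ∧ ¬ PK.IsGevreyZeroSet α E :=
  PG.all_exponents

end Pool.Agent.Results.MP_345ce5_an.EveryExponent
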